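import Pool.Graph.R_seed8.Results.MP_7cfe9c_gt.TwoBridge

/-!
# Two-bridge knots with constant even continued fraction
-/

set_option autoImplicit false

open Pool.Agent.R899.TB Pool.Agent.Results.MP_7cfe9c_gt.TwoBridge

namespace KS6_21.TB

/-- Binomial coefficients with integral lower index. -/
def bin (n : ℕ) (i : ℤ) : ℤ := if 0 ≤ i then (n.choose i.toNat : ℤ) else 0

theorem bin_nat (n j : ℕ) : bin n (j : ℤ) = n.choose j := by
  simp [bin]

theorem bin_zero (i : ℤ) : bin 0 i = if i = 0 then 1 else 0 := by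
  unfold bin
  by_cases h : 0 ≤ i
  · lift i to ℕ using h
    cases i with
    | zero => simp
    | succ k =>
      have h1 : ((k + 1 : ℕ) : ℤ) ≠ 0 := by omega
      rw [if_neg h1]
      simp
  · have : i ≠ 0 := by omega
    simp [h, this]

theorem bin_succ (n : ℕ) (i : ℤ) : bin (n + 1) i = bin n i + bin n (i - 1) := by
  by_cases h : 0 ≤ i
  · lift i to ℕ using h
    cases i with
    | zero => simp [bin]
    | succ k =>
      have e : (((k + 1 : ℕ) : ℤ) - 1) = (k : ℤ) := by push_cast; ring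
      rw [e, bin_nat, bin_nat, bin_nat, Nat.choose_succ_succ]
      push_cast
      ring
  · have h1 : ¬ 0 ≤ i - 1 := by omega
    unfold bin
    rw [if_neg h, if_neg h, if_neg h1, add_zero]

theorem bin_bound (n : ℕ) (i : ℤ) : |bin n i| ≤ 2 ^ n := by
  induction n generalizing i with
  | zero =>
    rw [bin_zero]
    split_ifs <;> simp
  | succ n ih =>
    rw [bin_succ]
    have h1 := ih i
    have h2 := ih (i - 1)
    have h3 := abs_add_le (bin n i) (bin n (i - 1))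
    rw [pow_succ]
    linarith

theorem K_step (n : ℕ) (c : ℤ) (hc : 1 ≤ c) (i : ℤ) :
    K (n + 2) (fun _ => c) i = c * (K (n + 1) (fun _ => c) i + K (n + 1) (fun _ => c) (i - 1))
      - K n (fun _ => c) (i - 1) := by
  have h : K (n + 2) (fun _ => c) i = |c| * (K (n + 1) (fun _ => c) i
      + K (n + 1) (fun _ => c) (i - 1)) - (c.sign * c.sign) * K n (fun _ => c) (i - 1) := rfl
  rw [h, abs_of_pos (by omega), Int.sign_eq_one_of_pos (by omega)]
  ring

/-- The main term of the coefficients for a large constant entry. -/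
theorem approx (n : ℕ) : ∃ M : ℤ, 0 ≤ M ∧ ∀ c : ℤ, 1 ≤ c → ∀ i : ℤ,
    |c * K n (fun _ => c) i - c ^ (n + 1) * bin n i| ≤ M * c ^ n := by
  suffices H : ∀ n, (∃ M : ℤ, 0 ≤ M ∧ ∀ c : ℤ, 1 ≤ c → ∀ i : ℤ,
      |c * K n (fun _ => c) i - c ^ (n + 1) * bin n i| ≤ M * c ^ n) ∧
      (∃ M : ℤ, 0 ≤ M ∧ ∀ c : ℤ, 1 ≤ c → ∀ i : ℤ,
      |c * K (n + 1) (fun _ => c) i - c ^ (n + 1 + 1) * bin (n + 1) i| ≤ M * c ^ (n + 1)) from
    (H n).1
  intro n
  induction n with
  | zero =>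
    constructor
    · refine ⟨0, le_refl _, fun c _ i => ?_⟩
      have h : K 0 (fun _ => c) i = bin 0 i := by rw [bin_zero]; rfl
      rw [h]
      simp
    · refine ⟨0, le_refl _, fun c hc i => ?_⟩
      have h : K 1 (fun _ => c) i = c * bin 1 i := by
        have h0 : K 1 (fun _ => c) i = |c| * ((if i = 0 then 1 else 0) +
          (if i - 1 = 0 then 1 else 0)) := rfl
        rw [h0, abs_of_pos (by omega), bin_succ, bin_zero, bin_zero]
      rw [h]
      ring_nf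
      simp
  | succ n ih =>
    refine ⟨ih.2, ?_⟩
    obtain ⟨M0, hM0, h0⟩ := ih.1
    obtain ⟨M1, hM1, h1⟩ := ih.2
    refine ⟨2 * M1 + M0 + 2 ^ n, by positivity, fun c hc i => ?_⟩
    have e : c * K (n + 1 + 1) (fun _ => c) i - c ^ (n + 1 + 1 + 1) * bin (n + 1 + 1) i =
        c * (c * K (n + 1) (fun _ => c) i - c ^ (n + 1 + 1) * bin (n + 1) i) +
        c * (c * K (n + 1) (fun _ => c) (i - 1) - c ^ (n + 1 + 1) * bin (n + 1) (i - 1)) -
        (c * K n (fun _ => c) (i - 1) - c ^ (n + 1) * bin n (i - 1)) -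
        c ^ (n + 1) * bin n (i - 1) := by
      rw [K_step n c hc, bin_succ (n + 1)]
      ring
    have a1 := h1 c hc i
    have a2 := h1 c hc (i - 1)
    have a3 := h0 c hc (i - 1)
    have a4 := bin_bound n (i - 1)
    have hp : (0 : ℤ) ≤ c ^ n := by positivity
    have hp1 : c ^ n ≤ c ^ (n + 1) := by
      rw [pow_succ]
      nlinarith
    have hp2 : c ^ (n + 1) ≤ c ^ (n + 1 + 1) := by
      rw [pow_succ c (n + 1)]
      nlinarith
    have hp3 : (0 : ℤ) ≤ c ^ (n + 1) := by positivity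
    rw [abs_le] at a1 a2 a3 a4
    have hc0 : (0 : ℤ) ≤ c := by omega
    have ee : c * (M1 * c ^ (n + 1)) = M1 * c ^ (n + 1 + 1) := by ring
    have ee' : c * (-(M1 * c ^ (n + 1))) = -(M1 * c ^ (n + 1 + 1)) := by ring
    have b1 := mul_le_mul_of_nonneg_left a1.2 hc0
    have b1' := mul_le_mul_of_nonneg_left a1.1 hc0
    have b2 := mul_le_mul_of_nonneg_left a2.2 hc0
    have b2' := mul_le_mul_of_nonneg_left a2.1 hc0
    rw [ee] at b1 b2
    rw [ee'] at b1' b2'
    have b3 : M0 * c ^ n ≤ M0 * c ^ (n + 1 + 1) :=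
      mul_le_mul_of_nonneg_left (hp1.trans hp2) hM0
    have b4 : c ^ (n + 1) * bin n (i - 1) ≤ 2 ^ n * c ^ (n + 1 + 1) := by
      have h5 : c ^ (n + 1) * bin n (i - 1) ≤ c ^ (n + 1) * 2 ^ n :=
        mul_le_mul_of_nonneg_left a4.2 hp3
      have h6 : (2 : ℤ) ^ n * c ^ (n + 1) ≤ 2 ^ n * c ^ (n + 1 + 1) :=
        mul_le_mul_of_nonneg_left hp2 (by positivity)
      linarith
    have b4' : -(2 ^ n * c ^ (n + 1 + 1)) ≤ c ^ (n + 1) * bin n (i - 1) := by
      have h5 : c ^ (n + 1) * (-2 ^ n) ≤ c ^ (n + 1) * bin n (i - 1) :=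
        mul_le_mul_of_nonneg_left a4.1 hp3
      have h6 : (2 : ℤ) ^ n * c ^ (n + 1) ≤ 2 ^ n * c ^ (n + 1 + 1) :=
        mul_le_mul_of_nonneg_left hp2 (by positivity)
      linarith
    rw [e, abs_le]
    constructor <;> linarith [a3.1, a3.2]

/-- A positive combination of binomial coefficients stays positive for large `c`. -/
theorem pos_of (n : ℕ) : ∃ c₀ : ℤ, 1 ≤ c₀ ∧ ∀ c : ℤ, c₀ ≤ c → ∀ x y z : ℤ,
    (bin n x + bin n z < 2 * bin n y →
      K n (fun _ => c) x + K n (fun _ => c) z < 2 * K n (fun _ => c) y) ∧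
    (2 * bin n y < bin n x + bin n z →
      2 * K n (fun _ => c) y < K n (fun _ => c) x + K n (fun _ => c) z) := by
  obtain ⟨M, hM, h⟩ := approx n
  refine ⟨4 * M + 1, by omega, fun c hc x y z => ?_⟩
  have hc1 : 1 ≤ c := by omega
  have h1 := abs_le.1 (h c hc1 x)
  have h2 := abs_le.1 (h c hc1 y)
  have h3 := abs_le.1 (h c hc1 z)
  have hp : (0 : ℤ) < c ^ n := by positivity
  have hp1 : c ^ (n + 1) = c ^ n * c := pow_succ c n
  have hbig : 4 * M * c ^ n < c ^ (n + 1) := by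
    rw [hp1]
    nlinarith
  constructor
  · intro hb
    have h5 : c ^ (n + 1) * 1 ≤ c ^ (n + 1) * (2 * bin n y - bin n x - bin n z) :=
      mul_le_mul_of_nonneg_left (by omega) (by positivity)
    have h6 : 0 < c * (2 * K n (fun _ => c) y - K n (fun _ => c) x - K n (fun _ => c) z) := by
      nlinarith [h1.1, h1.2, h2.1, h2.2, h3.1, h3.2]
    have h7 := (mul_pos_iff_of_pos_left (show (0 : ℤ) < c by omega)).1 h6
    omega
  · intro hb
    have h5 : c ^ (n + 1) * 1 ≤ c ^ (n + 1) * (bin n x + bin n z - 2 * bin n y) :=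
      mul_le_mul_of_nonneg_left (by omega) (by positivity)
    have h6 : 0 < c * (K n (fun _ => c) x + K n (fun _ => c) z - 2 * K n (fun _ => c) y) := by
      nlinarith [h1.1, h1.2, h2.1, h2.2, h3.1, h3.2]
    have h7 := (mul_pos_iff_of_pos_left (show (0 : ℤ) < c by omega)).1 h6
    omega

theorem beta (m : ℕ) : bin (2 * (m + 2)) ((m + 2 : ℕ) : ℤ) + bin (2 * (m + 2)) (m : ℤ) <
    2 * bin (2 * (m + 2)) ((m + 1 : ℕ) : ℤ) := by
  rw [bin_nat, bin_nat, bin_nat]
  have e1 := Nat.choose_succ_right_eq (2 * (m + 2)) (m + 1)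
  have e2 := Nat.choose_succ_right_eq (2 * (m + 2)) m
  have s1 : 2 * (m + 2) - (m + 1) = m + 3 := by omega
  have s2 : 2 * (m + 2) - m = m + 4 := by omega
  rw [s1] at e1
  rw [s2] at e2
  have hA : 0 < (2 * (m + 2)).choose (m + 1) := Nat.choose_pos (by omega)
  set A := (2 * (m + 2)).choose (m + 1)
  set P := (2 * (m + 2)).choose (m + 1 + 1)
  set Q := (2 * (m + 2)).choose m
  zify at e1 e2 hA
  have e1' : (P : ℤ) * (m + 2) = A * (m + 3) := by linarith
  have e2' : (A : ℤ) * (m + 1) = Q * (m + 4) := by linarith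
  have key : (2 * (A : ℤ) - P - Q) * ((m + 2) * (m + 4)) = A * (2 * m + 2) := by
    linear_combination (-(m + 4 : ℤ)) * e1' + (m + 2 : ℤ) * e2'
  have hpos : 0 < (2 * (A : ℤ) - P - Q) * ((m + 2) * (m + 4)) := by
    rw [key]
    positivity
  have := (mul_pos_iff_of_pos_right (show (0 : ℤ) < ((m : ℤ) + 2) * (m + 4) by positivity)).1 hpos
  linarith

theorem gamma (m : ℕ) : 2 * bin (2 * (m + 3)) ((1 : ℕ) : ℤ) <
    bin (2 * (m + 3)) ((2 : ℕ) : ℤ) + bin (2 * (m + 3)) ((0 : ℕ) : ℤ) := by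
  rw [bin_nat, bin_nat, bin_nat, Nat.choose_one_right, Nat.choose_zero_right]
  have e1 := Nat.choose_succ_right_eq (2 * (m + 3)) 1
  rw [Nat.choose_one_right] at e1
  have s1 : 2 * (m + 3) - 1 = 2 * m + 5 := by omega
  rw [s1] at e1
  zify at e1 ⊢
  nlinarith

theorem cst_ne (c : ℤ) (hc : 1 ≤ c) (n : ℕ) : ∀ i < n, (fun _ : ℕ => c) i ≠ 0 := by
  intro i _
  change c ≠ 0
  omega

/-- **The family.** -/
theorem family (g : ℕ) (hg : 3 ≤ g) : ∃ c₀ : ℤ, 1 ≤ c₀ ∧ ∀ c : ℤ, c₀ ≤ c →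
    absCoeff g (fun _ => c) g = c ^ (2 * g) ∧
    absCoeff g (fun _ => c) 0 + absCoeff g (fun _ => c) 2 < 2 * absCoeff g (fun _ => c) 1 ∧
    2 * absCoeff g (fun _ => c) (g - 1) <
      absCoeff g (fun _ => c) (g - 2) + absCoeff g (fun _ => c) g := by
  obtain ⟨c₀, h1, h⟩ := pos_of (2 * g)
  refine ⟨c₀, h1, fun c hc => ?_⟩
  have hc1 : 1 ≤ c := by omega
  have hb := cst_ne c hc1 (2 * g)
  obtain ⟨m, rfl⟩ : ∃ m, g = m + 3 := ⟨g - 3, by omega⟩
  have E : ∀ i j : ℕ, i ≤ m + 3 → i + j = m + 3 →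
      absCoeff (m + 3) (fun _ => c) i = K (2 * (m + 3)) (fun _ => c) (j : ℤ) := by
    intro i j hi hij
    rw [absCoeff_eq (m + 3) (fun _ => c) hb i hi]
    congr 1
    omega
  have n1 : m + 3 - 1 = m + 2 := rfl
  have n2 : m + 3 - 2 = m + 1 := rfl
  rw [n1, n2, E 0 (m + 3) (by omega) (by omega), E 1 (m + 2) (by omega) (by omega),
    E 2 (m + 1) (by omega) (by omega), E (m + 3) 0 (by omega) (by omega),
    E (m + 2) 1 (by omega) (by omega), E (m + 1) 2 (by omega) (by omega)]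
  refine ⟨?_, ?_, ?_⟩
  · have h2 := K_zero (2 * (m + 3)) (fun _ => c) hb
    rw [Nat.cast_zero, h2, Finset.prod_const, Finset.card_range, abs_of_pos (by omega)]
  · exact (h c hc _ _ _).1 (beta (m + 1))
  · exact (h c hc _ _ _).2 (gamma m)

end KS6_21.TB
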